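import Mathlib
import Pool.Agent.W133.DQ.StB

set_option autoImplicit false

namespace Pool.Agent.W880.DQ

open Pool.Agent.W133.DQ
open scoped ContDiff

theorem em : S_EM := by
  intro η hη h1 hC
  choose Cr hCr using hC
  have hCr' : ∀ r p, ‖iteratedFDeriv ℝ r η p‖ ≤ |Cr r| := fun r p =>
    (hCr r p).trans (le_abs_self _)
  have hle : ∀ k : ℕ, ((k : ℕ∞) : WithTop ℕ∞) ≤ ∞ := fun k => by
    exact_mod_cast le_top
  constructor
  · refine ⟨∑ k ∈ Finset.range 5, ∑ i ∈ Finset.range (k + 1), (k.choose i : ℝ) * |Cr i|, ?_, ?_⟩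
    · exact Finset.sum_nonneg fun k _ => Finset.sum_nonneg fun i _ =>
        mul_nonneg (Nat.cast_nonneg _) (abs_nonneg _)
    · intro u a hu ha k hk hj p
      have h2 := norm_iteratedFDeriv_mul_le hη hu p (hle k)
      refine h2.trans ?_
      have h3 : ∑ i ∈ Finset.range (k + 1), (k.choose i : ℝ) * ‖iteratedFDeriv ℝ i η p‖ *
          ‖iteratedFDeriv ℝ (k - i) u p‖ ≤
          ∑ i ∈ Finset.range (k + 1), (k.choose i : ℝ) * |Cr i| * a := by
        refine Finset.sum_le_sum fun i _ => ?_
        apply mul_le_mul _ (hj (k - i) (Nat.sub_le _ _) p) (norm_nonneg _)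
          (mul_nonneg (Nat.cast_nonneg _) (abs_nonneg _))
        exact mul_le_mul_of_nonneg_left (hCr' i p) (Nat.cast_nonneg _)
      refine h3.trans ?_
      rw [← Finset.sum_mul]
      apply mul_le_mul_of_nonneg_right _ ha
      exact Finset.single_le_sum (f := fun k : ℕ => ∑ i ∈ Finset.range (k + 1),
        (k.choose i : ℝ) * |Cr i|) (fun k _ => Finset.sum_nonneg fun i _ =>
        mul_nonneg (Nat.cast_nonneg _) (abs_nonneg _)) (Finset.mem_range.2 (by omega))
  · intro r m
    refine ⟨∑ i ∈ Finset.range r, (r.choose (i + 1) : ℝ) * |Cr (i + 1)| * |m|, ?_, ?_⟩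
    · exact Finset.sum_nonneg fun i _ =>
        mul_nonneg (mul_nonneg (Nat.cast_nonneg _) (abs_nonneg _)) (abs_nonneg _)
    · intro u b hu hb hj hr p
      have h2 := norm_iteratedFDeriv_mul_le hη hu p (hle r)
      refine h2.trans ?_
      rw [Finset.sum_range_succ', add_comm b]
      apply add_le_add
      · refine Finset.sum_le_sum fun i hi => ?_
        have hi' := Finset.mem_range.1 hi
        apply mul_le_mul _ ((hj (r - (i + 1)) (by omega) p).trans (le_abs_self m)) (norm_nonneg _)
          (mul_nonneg (Nat.cast_nonneg _) (abs_nonneg _))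
        exact mul_le_mul_of_nonneg_left (hCr' (i + 1) p) (Nat.cast_nonneg _)
      · rw [Nat.choose_zero_right, Nat.cast_one, one_mul, Nat.sub_zero,
          norm_iteratedFDeriv_zero, Real.norm_eq_abs]
        calc |η p| * ‖iteratedFDeriv ℝ r u p‖ ≤ 1 * b :=
              mul_le_mul (h1 p) (hr p) (norm_nonneg _) zero_le_one
          _ = b := one_mul b

end Pool.Agent.W880.DQ
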